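import Pool.Agent.MP_ecfd11_lc.H3H.Main
import Pool.Agent.MP_ecfd11_lc.H3G.Fin

/-!
The dichotomy from an assembly lemma.
-/

set_option synthInstance.maxSize 4000

namespace Pool.Agent.MP_ecfd11_lc.H3N

open Pool.Agent.MP_ecfd11_lc.H20 Pool.Agent.MP_ecfd11_lc.H13X Pool.Agent.MP_ecfd11_lc.H3U
  Pool.Agent.MP_ecfd11_lc.H3E Pool.Agent.MP_ecfd11_lc.H65S Pool.Agent.MP_ecfd11_lc.H46M
  Pool.Agent.MP_ecfd11_lc.H3G Pool.Agent.MP_ecfd11_lc.H65D

universe u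

open ZFSet Cardinal Function Filter

/-- All covered extenders at `a` are in HOD. -/
def Asm (g t : ZFSet.{u}) (B : ZFSet.{u} → ZFSet.{u}) (a : ZFSet.{u}) : Prop :=
  ∀ n v G : ZFSet.{u}, n.IsOrdinal → (∃ y, y ∈ n) → CovK g a n v → G ∈ low t →
    HOD Set.univ (ExQ B a n G)

theorem asm_old {g t a : ZFSet.{u}} {B : ZFSet.{u} → ZFSet.{u}} (hg : ℵ₀ ≤ card g)
    (go : g.IsOrdinal) (h : Good t B a) (hb : BdK g a) (hs : SL a) (hr : RealM g t B a)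
    (sm : StronglyMeasurable Set.univ (succCard a)) (hl : ∃ l < card a, Few l a (Lev a)) :
    Asm g t B a := fun n v G hn _ hv hG => by
  have hc : card (Lev a) ≤ card a := card_le_of_surj (fun x => B x ∩ vC Set.univ a)
    fun A hA => (h.tr A hA).imp fun x hx => ⟨hx.1, hx.2.symm⟩
  obtain ⟨l, hl, hf⟩ := hl
  obtain ⟨L, l1, l2⟩ := cfn_of_few hs (hb.unc hg h.ord) sm hc hl hf
  exact assemblyM hg go h hb hs hr l1 l2 hn hv hG

theorem endN {d x t g : ZFSet.{u}} (P : ZFSet.{u} → Prop) (hd : StronglyCompact d t)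
    (hdt : d ∈ t) (hx : x ∈ t) (hp : 2 ^ card (d ∪ x) < card t) (ht : Regular Set.univ t)
    (go : g.IsOrdinal) (hk : ℵ₀ ≤ card g) (hw : ∀ e ∈ t, card e ^ card g < card t)
    (hs : ∀ l, x ∈ l → l ⊆ succCard t → Regular Set.univ l → StronglyMeasurable Set.univ l)
    (hA : ∀ B : ZFSet.{u} → ZFSet.{u}, (∀ᶠ a in cf t (unc_of_regular ht), Good t B a) →
      ∀ᶠ a in cf t (unc_of_regular ht), Good t B a → BdK g a → (card a).IsStrongLimit → SL a →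
        P a → Asm g t B a) :
    ∃ th, HODSucc t th ∧ (SupHOD t th ∨ CofOmega Set.univ th ∧
    ∃ c, Club t c ∧ ∀ a ∈ c, (card a).IsStrongLimit →
      ¬ Regular Set.univ (card a).ord.toZFSet →
      (∀ y, y ⊆ a → card y ≤ card g → ∃ b ∈ a, ∀ z ∈ y, z ∈ b) →
      (P a ∨ ∃ l < card a, Few l a (Lev a)) →
      ∀ Q, Q ∈ vonNeumann t.rank → Q.IsTransitive → a ∈ Q → Few (card g) a Q →
        ∃ (M : Set ZFSet.{u}) (i : ZFSet.{u} → ZFSet.{u}), Internal M i ∧ (∀ y ∈ a, i y = y) ∧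
          ∀ z ∈ Q, z ∈ M ∧ (z.IsOrdinal → z ∈ i a)) := by
  have hu := unc_of_regular ht
  have hw' : ∀ e ∈ t, card e ^ ℵ₀ < card t := fun e he => by
    by_cases h2 : card e = 0
    · rw [h2]
      exact (zero_power_le _).trans_lt (one_lt_aleph0.trans ht.aleph0_lt)
    · exact (power_le_power_left h2 hk).trans_lt (hw e he)
  have h5 : ∀ a : ZFSet.{u}, a.IsOrdinal → a ∈ succCard a := fun a ha =>
    mem_succCard.2 ⟨ha, le_rfl⟩
  have h6 : ∀ a : ZFSet.{u}, a.IsOrdinal → x ∈ a → a ⊆ t → ℵ₀ ≤ card a →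
      StronglyMeasurable Set.univ (succCard a) := fun a ha h1 h2 h3 =>
    hs _ ((succCard_ord a).mem_trans h1 (h5 a ha)) (fun z hz => mem_succCard.2
      ⟨(mem_succCard.1 hz).1, (mem_succCard.1 hz).2.trans (card_mono h2)⟩) (regular_succCard h3)
  have hst := hs t hx ((succCard_ord t).subset_of_mem (h5 t ht.1)) ht
  have hL := card_Lev (h6 t ht.1 hx subset_rfl ht.aleph0_lt.le) (h5 t ht.1)
  obtain ⟨th, t0, t1, t2, t3⟩ := exists_th ht.1
  have hth : Th t th := ⟨t0, t1, t2⟩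
  refine ⟨th, hth.succ ht.1, ?_⟩
  by_cases hn : Unc th
  · exact Or.inl (supA hd hdt hx hp ht hs hth (t3.trans hL) hn)
  refine Or.inr ⟨hth.cofOmega ht.1 (ht.1.subset_of_mem ht.2.1) hn, ?_⟩
  obtain ⟨ee, he⟩ := hth.inj ht.1
  obtain ⟨B, hB⟩ := system2 hd hdt hst hL hw'
  have hB' := hB.mono fun _ h => h.1
  obtain ⟨c, c1, c2⟩ := (ev_iff hu).1 (hB.and ((realM hk ht hw hB').and
    ((ev_above hu hx).and ((link ht hth he hn hB').and (hA B hB')))))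
  refine ⟨c, c1, fun a ha a1 a2 a3 a4 Q q1 q2 q3 q5 => ?_⟩
  obtain ⟨⟨G, g1⟩, g2, g3, g4, g5⟩ := not_not.1 fun h => c2 a (mem_sep.2 ⟨c1.1 ha, h⟩) ha
  have ao := G.ord
  have au := BdK.unc a3 hk ao
  have sl := sl_of a1 a2 au
  have sm := h6 a ao g3 G.sub sl.unc.le
  have ho := (om_subset_iff ao).2 sl.unc.le
  have asm : Asm g t B a := a4.elim (g5 G a3 a1 sl) (asm_old hk go G a3 sl (g2 a3) sm)
  have ga : card g ≤ card a := by
    by_contra h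
    obtain ⟨b, b1, b2⟩ := a3 a subset_rfl (not_le.1 h).le
    exact mem_irrefl b (b2 b b1)
  obtain ⟨N, j, -, -, n3, n4, n5, n6⟩ := g1 au
  obtain ⟨R, p1, p2, p3, n, f, hn, f0, f1, f2, f3⟩ :=
    H3H.close hu (fun z hz => q2.mem_trans (ho hz) q3) q1 q5
  have q0 : HOD Set.univ R := by
    have := hod_tm f0
    have e : R = img (app f) n := ZFSet.ext fun z => ⟨fun hz => by
      obtain ⟨r, hr⟩ := f2 z hz
      exact mem_img.2 ⟨r, (pair_mem_prod.1 (f1.1 hr)).1, f1.app_eq hr⟩, fun hz => by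
      obtain ⟨r, hr, rfl⟩ := mem_img.1 hz
      exact f1.app_mem' hr⟩
    rw [e]
    exact hod_img (hod_ord hn).self _ fun i hi => hod_app f0 f1 hi
  obtain ⟨s, s0, s1, s2, -⟩ := exists_th ao
  obtain ⟨y, y1, y2, y3⟩ := g4 s ⟨s0, s1, s2⟩
  have m0 := small ga sm ao hn f3
  obtain ⟨v, hv⟩ := (kp_of hk ao ho sl s0 s1 s2 (y1.trans hk) y2 y3 hn m0 f3).cvd ao hn
  have m7 := asm n v f hn ((f2 a (p2 q3)).imp fun r hr => (pair_mem_prod.1 (f1.1 hr)).1) hv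
    (main_low ht (ht.mem_of_card_lt hn (m0.trans_lt (ht.card_lt (c1.1 ha)))) p1 f0 f1)
  obtain ⟨M, i, e, m1, m2, m3, m4, -⟩ := clause G n5 n6 q0
    ((isTransitive_vonNeumann _).subset_of_mem p1) ⟨a, p2 q3⟩ p3 f0 f1 f2 m7
  have m6 := fix_of_elem (fun x hx => (m1.1 x hx).2) m2 q2 fun z hz => m4 z (p2 hz)
  have im : ∀ y : ZFSet.{u}, y.IsOrdinal → i y ∈ M := fun y hy => m1.2.1.1 y (hod_ord hy)
  refine ⟨M, i, m1, fun y hy => ?_, fun z hz => ⟨(m6 z hz).1, fun zo => ?_⟩⟩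
  · obtain ⟨h1, h2⟩ := m6 y (q2.mem_trans hy q3)
    exact (m2.2 (.eq 0 1) (cons (i y) fun _ => y) fun n => by
      cases n; exacts [im y (ao.mem hy), h1]).2
        (((m3 y (hod_ord (ao.mem hy))).trans (n3 y hy)).trans h2.symm)
  · obtain ⟨h1, h2⟩ := m6 z hz
    refine (m2.2 (.mem 0 1) (cons z fun _ => i a) fun n => by
      cases n; exacts [h1, im a ao]).2 ?_
    change e z ∈ e (i a)
    rw [h2, m3 a (hod_ord ao), n4]
    exact (zo.rank_lt_iff_mem ht.1).1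
      (mem_vonNeumann.1 ((isTransitive_vonNeumann _).mem_trans hz q1))

end Pool.Agent.MP_ecfd11_lc.H3N
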